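import Pool.Agent.H88.CAP.Main
import Pool.Agent.H88.CAP.Field

set_option autoImplicit false

/-!
# The compact approximation property does not suffice

Question Q2 asks whether every affine map of the first Baire class from a compact convex set `X` to
a Banach space `E` with the compact approximation property is a pointwise limit of a sequence of
continuous affine maps. The answer is negative, over the reals and over the complex numbers, even
for a space with the metric compact approximation property and a metrizable compact convex set: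
`X` is a compact convex set in the countable power `ℕ → ℕ × ℕ → ℝ` of the line.
-/

namespace Pool.Agent.Results.MP_04557e_an.MetricCAPNotEnough

open Filter Topology

/-- The metric compact approximation property: for every compact set `K` and every `ε > 0` there is
a compact operator of norm at most one that moves no point of `K` by `ε` or more. (Dropping the
bound on the norm gives the compact approximation property of the problem.) -/
def HasMetricCAP (𝕜 E : Type) [RCLike 𝕜] [NormedAddCommGroup E] [NormedSpace 𝕜 E] : Prop :=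
  ∀ K : Set E, IsCompact K → ∀ ε : ℝ, 0 < ε → ∃ T : E →L[𝕜] E, IsCompactOperator T ∧
    ‖T‖ ≤ 1 ∧ ∀ x ∈ K, ‖T x - x‖ < ε

/-- `f : X → E` is affine. -/
def IsAffine (𝕜 : Type) [RCLike 𝕜] {V E : Type} [AddCommGroup V] [Module ℝ V]
    [NormedAddCommGroup E] [NormedSpace 𝕜 E] (X : Set V) (f : X → E) : Prop :=
  ∀ (x y z : X) (t : ℝ), 0 ≤ t → t ≤ 1 → (z : V) = t • (x : V) + (1 - t) • (y : V) →
    f z = (t : 𝕜) • f x + ((1 - t : ℝ) : 𝕜) • f y

/-- `f : X → E` is of the first Baire class. -/
def IsBaireOne {V E : Type} [TopologicalSpace V] [TopologicalSpace E] (X : Set V)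
    (f : X → E) : Prop :=
  ∃ F : ℕ → X → E, (∀ n, Continuous (F n)) ∧ ∀ x, Tendsto (fun n => F n x) atTop (𝓝 (f x))

/-- `f : X → E` is the pointwise limit of a sequence of continuous affine maps. -/
def IsAffineOne (𝕜 : Type) [RCLike 𝕜] {V E : Type} [AddCommGroup V] [Module ℝ V]
    [TopologicalSpace V] [NormedAddCommGroup E] [NormedSpace 𝕜 E] (X : Set V)
    (f : X → E) : Prop :=
  ∃ F : ℕ → X → E, (∀ n, Continuous (F n) ∧ IsAffine 𝕜 X (F n)) ∧
    ∀ x, Tendsto (fun n => F n x) atTop (𝓝 (f x))

/-- **Negative answer to Q2**, over `𝕜 = ℝ` and over `𝕜 = ℂ`. -/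
theorem result (𝕜 : Type) [RCLike 𝕜] :
    ∃ (E : Type) (_ : NormedAddCommGroup E) (_ : NormedSpace 𝕜 E) (_ : CompleteSpace E),
      HasMetricCAP 𝕜 E ∧
      ∃ X : Set (ℕ → ℕ × ℕ → ℝ), X.Nonempty ∧ IsCompact X ∧ Convex ℝ X ∧
        ∃ f : X → E, IsAffine 𝕜 X f ∧ IsBaireOne X f ∧ ¬ IsAffineOne 𝕜 X f := by
  obtain ⟨s⟩ := Pool.Agent.H812R2.AP.exists_sys
  open Pool.Agent.H88.CAP in
  refine ⟨Cx 𝕜 (W s), inferInstance, inferInstance, inferInstance,
    Cx.metricCAP (hasCAP s), XX s, ⟨_, (cstX s 0).2⟩, isCompact_XX s, convex_XX s,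
    fun φ => Cx.emb (ff s φ), ?_, ?_, ?_⟩
  · intro φ ψ χ t h0 h1 h
    dsimp only
    rw [ff_affine s φ ψ χ t h0 h1 h, Cx.emb_comb]
  · obtain ⟨F, hF, hlim⟩ := ff_baire s
    exact ⟨fun n φ => Cx.emb (F n φ), fun n => Cx.continuous_emb.comp (hF n),
      fun φ => (Cx.continuous_emb.tendsto _).comp (hlim φ)⟩
  · rintro ⟨F, hF, hlim⟩
    refine not_affineOne s (fun j φ => Cx.map (F j φ) 1) (fun j => Cx.continuous_one.comp (hF j).1)
      (fun j φ ψ χ t h0 h1 h => ?_) (fun φ => ?_)
    · have h2 := (hF j).2 φ ψ χ t h0 h1 h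
      rw [h2, Cx.map_add, _root_.add_apply, Cx.map_real_smul, Cx.map_real_smul]
    · have h2 := (Cx.continuous_one.tendsto _).comp (hlim φ)
      have h3 : Cx.map (Cx.emb (ff s φ) : Cx 𝕜 (W s)) 1 = ff s φ := Cx.emb_one _
      rw [h3] at h2
      exact h2

end Pool.Agent.Results.MP_04557e_an.MetricCAPNotEnough
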